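import Mathlib

set_option autoImplicit false

open MeasureTheory Set
open scoped Pointwise

namespace Pool.Agent.Results.MP_4d4a97_an.ClosedUnderIntegration

/-- Real functions defined on a subset of the line (`none` means: not defined). -/
abbrev PF := ℝ → Option ℝ

/-- The domain of a partially defined function. -/
def dom (g : PF) : Set ℝ := {x | (g x).isSome}

/-- The value of a partially defined function (`0` outside the domain). -/
def val (g : PF) (x : ℝ) : ℝ := (g x).getD 0

/-- The open interval with extended real end points. -/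
def J (a b : EReal) : Set ℝ := {x : ℝ | a < (x : EReal) ∧ (x : EReal) < b}

open Classical in
/-- The rational combination `P(g_1, …, g_m)/Q(g_1, …, g_m)`, defined where all `g_j` are defined
and `Q(g_1, …, g_m) ≠ 0`. -/
noncomputable def ratComb {m : ℕ} (P Q : MvPolynomial (Fin m) ℝ) (g : Fin m → PF) : PF := fun x =>
  if (∀ j, x ∈ dom (g j)) ∧ MvPolynomial.eval (fun j => val (g j) x) Q ≠ 0 then
    some (MvPolynomial.eval (fun j => val (g j) x) P / MvPolynomial.eval (fun j => val (g j) x) Q)
  else none

/-- The composite `h ∘ k`, defined at the `x ∈ dom k` with `k x ∈ dom h`. -/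
def comp (h k : PF) : PF := fun x => (k x).bind h

/-- `R f`: the smallest set of partially defined functions that contains the `f i` and is closed
under rational combinations (of at least one function) and composition. -/
inductive R {n : ℕ} (f : Fin n → PF) : PF → Prop
  | base (i : Fin n) : R f (f i)
  | rat {m : ℕ} (hm : 0 < m) (P Q : MvPolynomial (Fin m) ℝ) (g : Fin m → PF)
      (hg : ∀ j, R f (g j)) : R f (ratComb P Q g)
  | comp (h k : PF) (hh : R f h) (hk : R f k) : R f (comp h k)

/-! ### The null set -/

open Cardinal in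
theorem cantor_range_null :
    volume (Set.range (cantorFunction (1 / 3))) = 0 := by
  set S : Set ℝ := Set.range (cantorFunction (1 / 3)) with hS
  have hsub : S ⊆ ((1 / 3 : ℝ) • S) ∪ ((fun x : ℝ => 1 + x) '' ((1 / 3 : ℝ) • S)) := by
    rintro x ⟨b, rfl⟩
    rw [cantorFunction_succ b (by norm_num) (by norm_num)]
    have hmem : (1 / 3 : ℝ) * cantorFunction (1 / 3) (fun n => b (n + 1)) ∈ (1 / 3 : ℝ) • S :=
      ⟨_, ⟨_, rfl⟩, rfl⟩
    cases b 0 with
    | false => left; simpa using hmem
    | true => right; exact ⟨_, hmem, rfl⟩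
  have hbdd : S ⊆ Set.Icc 0 (3 / 2) := by
    rintro x ⟨b, rfl⟩
    constructor
    · exact tsum_nonneg fun n => cantorFunctionAux_nonneg (by norm_num)
    · have h1 : cantorFunction (1 / 3) b ≤ cantorFunction (1 / 3) (fun _ => true) :=
        cantorFunction_le (by norm_num) (by norm_num) (by intro n _; rfl)
      have h2 : cantorFunction (1 / 3) (fun _ => true) = 3 / 2 := by
        rw [cantorFunction]
        simp only [cantorFunctionAux_true]
        rw [tsum_geometric_of_lt_one (by norm_num) (by norm_num)]
        norm_num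
      linarith
  have hfin : volume S ≠ ⊤ := by
    have h1 := measure_mono (μ := volume) hbdd
    rw [Real.volume_Icc] at h1
    exact ne_top_of_le_ne_top ENNReal.ofReal_ne_top h1
  have h1 : volume ((1 / 3 : ℝ) • S) = ENNReal.ofReal (1 / 3) * volume S := by
    rw [Measure.addHaar_smul]
    simp
  have h2 : volume ((fun x : ℝ => 1 + x) '' ((1 / 3 : ℝ) • S)) =
      ENNReal.ofReal (1 / 3) * volume S := by
    rw [← h1, Set.image_add_left, measure_preimage_add]
  have h3 : volume S ≤ ENNReal.ofReal (2 / 3) * volume S := by
    calc volume S ≤ _ := measure_mono hsub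
      _ ≤ _ := measure_union_le _ _
      _ = ENNReal.ofReal (2 / 3) * volume S := by
        rw [h1, h2, ← add_mul, ← ENNReal.ofReal_add (by norm_num) (by norm_num)]
        norm_num
  -- conclude
  obtain ⟨v, hv⟩ : ∃ v : NNReal, (v : ENNReal) = volume S :=
    ⟨(volume S).toNNReal, ENNReal.coe_toNNReal hfin⟩
  rw [← hv] at h3 ⊢
  have h4 : ((v : ENNReal)) = ENNReal.ofReal (v : ℝ) := by simp
  rw [h4, ← ENNReal.ofReal_mul (by norm_num)] at h3
  have h5 := (ENNReal.ofReal_le_ofReal_iff (by positivity)).mp h3
  have h6 : (v : ℝ) = 0 := by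
    have := v.coe_nonneg
    linarith
  have h7 : v = 0 := by exact_mod_cast h6
  simp [h7]

/-! ### Encoding of reals by bits -/

section
open Cardinal

variable (q : ℕ → ℚ)

open Classical in
/-- the bits of `x` -/
noncomputable def bits (x : ℝ) : ℕ → Bool := fun k => decide ((q k : ℝ) < x)

/-- the strictly increasing function `∑ 1_{q_k < x} 9^{-k}` -/
noncomputable def H (x : ℝ) : ℝ := cantorFunction (1 / 9) (bits q x)

/-- interleaving of two bit sequences -/
def inter (b b' : ℕ → Bool) : ℕ → Bool := fun n => if n % 2 = 0 then b (n / 2) else b' (n / 2)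

theorem inter_even (b b' : ℕ → Bool) (k : ℕ) : inter b b' (2 * k) = b k := by
  simp [inter]

theorem inter_odd (b b' : ℕ → Bool) (k : ℕ) : inter b b' (2 * k + 1) = b' k := by
  have h1 : (2 * k + 1) % 2 = 1 := by omega
  have h2 : (2 * k + 1) / 2 = k := by omega
  simp [inter, h1, h2]

theorem inter_injective {b b' c c' : ℕ → Bool} (h : inter b b' = inter c c') : b = c ∧ b' = c' := by
  constructor
  · funext k
    rw [← inter_even b b' k, h, inter_even]
  · funext k
    rw [← inter_odd b b' k, h, inter_odd]

theorem cantor_inter (b b' : ℕ → Bool) : cantorFunction (1 / 3) (inter b b') =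
    cantorFunction (1 / 9) b + 1 / 3 * cantorFunction (1 / 9) b' := by
  have hs := summable_cantor_function (c := 1 / 3) (inter b b') (by norm_num) (by norm_num)
  have e1 : ∀ k, cantorFunctionAux (1 / 3) (inter b b') (2 * k) = cantorFunctionAux (1 / 9) b k := by
    intro k
    unfold cantorFunctionAux
    rw [inter_even, pow_mul]
    norm_num
  have e2 : ∀ k, cantorFunctionAux (1 / 3) (inter b b') (2 * k + 1) =
      1 / 3 * cantorFunctionAux (1 / 9) b' k := by
    intro k
    unfold cantorFunctionAux
    rw [inter_odd, pow_succ, pow_mul]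
    cases b' k
    · simp
    · simp only [cond_true]; norm_num; ring
  rw [cantorFunction, ← tsum_even_add_odd (hs.comp_injective (i := fun k => 2 * k)
      (fun a b hab => by simpa using hab))
    (hs.comp_injective (i := fun k => 2 * k + 1) (fun a b hab => by simpa using hab))]
  simp only [e1, e2]
  rw [tsum_mul_left]
  rfl

theorem bits_injective {q : ℕ → ℚ} (hq : Function.Surjective q) : Function.Injective (bits q) := by
  intro x y hxy
  by_contra hne
  rcases lt_or_gt_of_ne hne with h | h
  · obtain ⟨r, hr1, hr2⟩ := exists_rat_btwn h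
    obtain ⟨k, rfl⟩ := hq r
    have := congrFun hxy k
    simp only [bits, decide_eq_decide] at this
    exact absurd (this.mpr hr2) (not_lt.mpr hr1.le)
  · obtain ⟨r, hr1, hr2⟩ := exists_rat_btwn h
    obtain ⟨k, rfl⟩ := hq r
    have := congrFun hxy k
    simp only [bits, decide_eq_decide] at this
    exact absurd (this.mp hr2) (not_lt.mpr hr1.le)

theorem H_mono : Monotone (H q) := by
  intro x y hxy
  apply cantorFunction_le (by norm_num) (by norm_num)
  intro n hn
  simp only [bits, decide_eq_true_eq] at hn ⊢
  exact lt_of_lt_of_le hn hxy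

theorem H_nonneg (x : ℝ) : 0 ≤ H q x :=
  tsum_nonneg fun _ => cantorFunctionAux_nonneg (by norm_num)

theorem H_le (x : ℝ) : H q x ≤ 2 := by
  have h1 : H q x ≤ cantorFunction (1 / 9) (fun _ => true) :=
    cantorFunction_le (by norm_num) (by norm_num) (by intro n _; rfl)
  have h2 : cantorFunction (1 / 9) (fun _ => true) = 9 / 8 := by
    rw [cantorFunction]
    simp only [cantorFunctionAux_true]
    rw [tsum_geometric_of_lt_one (by norm_num) (by norm_num)]
    norm_num
  linarith

theorem third_bounds (b : ℕ → Bool) :
    0 ≤ cantorFunction (1 / 3) b ∧ cantorFunction (1 / 3) b ≤ 3 / 2 := by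
  constructor
  · exact tsum_nonneg fun n => cantorFunctionAux_nonneg (by norm_num)
  · have h1 : cantorFunction (1 / 3) b ≤ cantorFunction (1 / 3) (fun _ => true) :=
      cantorFunction_le (by norm_num) (by norm_num) (by intro n _; rfl)
    have h2 : cantorFunction (1 / 3) (fun _ => true) = 3 / 2 := by
      rw [cantorFunction]
      simp only [cantorFunctionAux_true]
      rw [tsum_geometric_of_lt_one (by norm_num) (by norm_num)]
      norm_num
    linarith

/-- There is a surjection from bit sequences onto the continuous functions on the line. -/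
theorem exists_surj : ∃ S : (ℕ → Bool) → C(ℝ, ℝ), Function.Surjective S := by
  have h1 : #(C(ℝ, ℝ)) ≤ #(ℕ → Bool) := by
    have hinj : Function.Injective (fun (F : C(ℝ, ℝ)) (r : ℚ) => F (r : ℝ)) := by
      intro F G hFG
      have : (F : ℝ → ℝ) = G := by
        apply Rat.isDenseEmbedding_coe_real.dense.equalizer F.continuous G.continuous
        funext r
        exact congrFun hFG r
      exact ContinuousMap.coe_injective this
    calc #(C(ℝ, ℝ)) ≤ #(ℚ → ℝ) := mk_le_of_injective hinj
      _ = #(ℕ → Bool) := by
        simp [mk_real]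
  obtain ⟨e⟩ := h1
  exact ⟨Function.invFun e, Function.invFun_surjective e.injective⟩

end

/-- A set integral over a fixed set up to a variable upper limit is continuous. -/
theorem continuous_integral {G : ℝ → ℝ} (hG : Integrable G) :
    Continuous fun x => ∫ t in Set.Iic x, G t := by
  have h1 : (fun x => ∫ t in Set.Iic x, G t) =
      fun x => (∫ t in Set.Iic 0, G t) + ∫ t in (0 : ℝ)..x, G t := by
    funext x
    rw [← intervalIntegral.integral_Iic_sub_Iic hG.integrableOn hG.integrableOn]
    ring
  rw [h1]
  exact continuous_const.add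
    (intervalIntegral.continuous_primitive (fun a b => hG.intervalIntegrable) 0)

theorem isOpen_J (a b : EReal) : IsOpen (J a b) := by
  have h : J a b = ((fun x : ℝ => (x : EReal)) ⁻¹' Set.Ioo a b) := rfl
  rw [h]
  exact isOpen_Ioo.preimage continuous_coe_real_ereal

theorem nonempty_J {a b : EReal} (h : a < b) : (J a b).Nonempty := by
  obtain ⟨x, h1, h2⟩ := EReal.lt_iff_exists_real_btwn.mp h
  exact ⟨x, h1, h2⟩

open Cardinal in
/-- For every interval `(a,b)` there are finitely many functions `f_i`, finite and summable on
`(a,b)`, such that for every `g ∈ R(f)` and every subinterval on which `g` is almost everywhere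
defined and summable, the indefinite integral of `g` belongs to `R(f)`. -/
theorem result : ∀ a b : EReal, a < b → ∃ (n : ℕ) (f : Fin n → PF),
    (∀ i, dom (f i) = J a b ∧ IntegrableOn (val (f i)) (J a b)) ∧
    ∀ g : PF, R f g → ∀ α β : EReal, α < β → J α β ⊆ J a b →
      (∀ᵐ t ∂(volume.restrict (J α β)), t ∈ dom g) → IntegrableOn (val g) (J α β) →
      ∃ h : PF, R f h ∧ ∀ x ∈ J α β, h x = some (∫ t in J α x, val g t) := by
  intro a b hab
  obtain ⟨p, hp⟩ := nonempty_J hab
  obtain ⟨ε, hε, hball⟩ := Metric.isOpen_iff.mp (isOpen_J a b) p hp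
  set δ : ℝ := ε / 4 with hδ
  have hδ0 : 0 < δ := by positivity
  obtain ⟨q, hq⟩ := exists_surjective_nat ℚ
  obtain ⟨S, hS⟩ := exists_surj
  -- the encoding
  set U : (ℕ → Bool) → ℝ → ℝ := fun b x => p + δ * cantorFunction (1 / 3) (inter (bits q x) b)
    with hU
  have hUJ : ∀ (c : ℕ → Bool) (x : ℝ), U c x ∈ J a b := by
    intro c x
    apply hball
    rw [Metric.mem_ball, Real.dist_eq]
    have h := third_bounds (inter (bits q x) c)
    simp only [hU, add_sub_cancel_left]
    rw [abs_of_nonneg (mul_nonneg hδ0.le h.1)]
    have : δ * cantorFunction (1 / 3) (inter (bits q x) c) ≤ δ * (3 / 2) :=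
      mul_le_mul_of_nonneg_left h.2 hδ0.le
    rw [hδ] at this ⊢
    linarith
  have hUinj : ∀ c x c' x', U c x = U c' x' → c = c' ∧ x = x' := by
    intro c x c' x' h
    simp only [hU, add_right_inj] at h
    have h1 := mul_left_cancel₀ hδ0.ne' h
    have h2 := cantorFunction_injective (by norm_num) (by norm_num) h1
    obtain ⟨h3, h4⟩ := inter_injective h2
    exact ⟨h4, bits_injective hq h3⟩
  -- the outer function
  classical
  set φ : ℝ → ℝ := fun u => if h : ∃ c x, U c x = u then S h.choose (h.choose_spec.choose) else 0
    with hφ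
  have hφU : ∀ c x, φ (U c x) = S c x := by
    intro c x
    have hex : ∃ c' x', U c' x' = U c x := ⟨c, x, rfl⟩
    have h1 := hex.choose_spec.choose_spec
    obtain ⟨h2, h3⟩ := hUinj _ _ _ _ h1
    simp only [hφ]
    rw [dif_pos hex]
    rw [h3]
    exact congrArg (fun s => S s x) h2
  -- `φ` vanishes almost everywhere
  have hnull : volume {u | φ u ≠ 0} = 0 := by
    have hsub : {u | φ u ≠ 0} ⊆
        (fun x : ℝ => p + x) '' (δ • Set.range (cantorFunction (1 / 3))) := by
      intro u hu
      by_contra hcon
      apply hu
      simp only [hφ]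
      rw [dif_neg]
      rintro ⟨c, x, rfl⟩
      exact hcon ⟨_, ⟨_, ⟨_, rfl⟩, rfl⟩, rfl⟩
    apply measure_mono_null hsub
    rw [Set.image_add_left, measure_preimage_add, Measure.addHaar_smul, cantor_range_null, mul_zero]
  have hφae : φ =ᵐ[volume] 0 := by
    rw [Filter.eventuallyEq_iff_exists_mem]
    exact ⟨{u | φ u ≠ 0}ᶜ, compl_mem_ae_iff.mpr hnull, fun u hu => by simpa using hu⟩
  -- the weight
  set w : ℝ → ℝ := fun x => (1 + x ^ 2)⁻¹ with hw
  have hwint : Integrable w := integrable_inv_one_add_sq
  have hw0 : ∀ x, w x ≠ 0 := fun x => by simp only [hw]; positivity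
  have hHint : Integrable (fun x => H q x * w x) := by
    apply Integrable.bdd_mul (c := 2) hwint
    · exact (H_mono q).measurable.aestronglyMeasurable
    · refine Filter.Eventually.of_forall fun x => ?_
      rw [Real.norm_eq_abs, abs_of_nonneg (H_nonneg q x)]
      exact H_le q x
  -- the three functions
  let mk : (ℝ → ℝ) → PF := fun F x => if x ∈ J a b then some (F x) else none
  have hmkdom : ∀ F, dom (mk F) = J a b := by
    intro F
    ext x
    by_cases hx : x ∈ J a b <;> simp [dom, mk, hx]
  have hmkval : ∀ F x, x ∈ J a b → val (mk F) x = F x := by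
    intro F x hx
    simp [val, mk, hx]
  have hmeas : MeasurableSet (J a b) := (isOpen_J a b).measurableSet
  have hmkint : ∀ F, IntegrableOn F (J a b) → IntegrableOn (val (mk F)) (J a b) := by
    intro F hF
    exact hF.congr_fun (fun x hx => (hmkval F x hx).symm) hmeas
  let f : Fin 3 → PF := ![mk (fun x => H q x * w x), mk w, mk φ]
  refine ⟨3, f, ?_, ?_⟩
  · intro i
    fin_cases i
    · exact ⟨hmkdom _, hmkint _ hHint.integrableOn⟩
    · exact ⟨hmkdom _, hmkint _ hwint.integrableOn⟩
    · refine ⟨hmkdom _, hmkint _ ?_⟩
      have : Integrable φ := (integrable_zero ℝ ℝ volume).congr hφae.symm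
      exact this.integrableOn
  · intro g _ α β _ hsub _ hint
    -- the indefinite integral as a continuous function on the line
    set G : ℝ → ℝ := (J α β).indicator (val g) with hG
    have hmeas' : MeasurableSet (J α β) := (isOpen_J α β).measurableSet
    have hGint : Integrable G := (integrable_indicator_iff hmeas').mpr hint
    let F : C(ℝ, ℝ) := ⟨fun x => ∫ t in Set.Iic x, G t, continuous_integral hGint⟩
    have hF : ∀ x ∈ J α β, F x = ∫ t in J α x, val g t := by
      intro x hx
      change ∫ t in Set.Iic x, G t = _
      rw [integral_Iic_eq_integral_Iio, hG, setIntegral_indicator hmeas']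
      congr 2
      ext t
      simp only [J, Set.mem_inter_iff, Set.mem_Iio, Set.mem_ofPred_eq, EReal.coe_lt_coe_iff]
      constructor
      · rintro ⟨h1, h2, h3⟩
        exact ⟨h2, h1⟩
      · rintro ⟨h1, h2⟩
        refine ⟨h2, h1, lt_trans ?_ hx.2⟩
        exact_mod_cast h2
    obtain ⟨c, hc⟩ := hS F
    -- the inner function
    let P : MvPolynomial (Fin 2) ℝ :=
      MvPolynomial.C (p + δ * (1 / 3 * cantorFunction (1 / 9) c)) * MvPolynomial.X 1 +
        MvPolynomial.C δ * MvPolynomial.X 0
    let Q : MvPolynomial (Fin 2) ℝ := MvPolynomial.X 1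
    let g₂ : Fin 2 → PF := ![f 0, f 1]
    have hinner : R f (ratComb P Q g₂) := by
      apply R.rat (by norm_num)
      intro j
      fin_cases j
      · exact R.base 0
      · exact R.base 1
    refine ⟨comp (f 2) (ratComb P Q g₂), R.comp _ _ (R.base 2) hinner, ?_⟩
    intro x hx
    have hxJ : x ∈ J a b := hsub hx
    have hval0 : val (g₂ 0) x = H q x * w x := hmkval _ x hxJ
    have hval1 : val (g₂ 1) x = w x := hmkval _ x hxJ
    have hrat : ratComb P Q g₂ x = some (U c x) := by
      unfold ratComb
      rw [if_pos]
      · congr 1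
        simp only [P, Q, map_add, map_mul, MvPolynomial.eval_C, MvPolynomial.eval_X, hval0, hval1]
        simp only [hU]
        rw [cantor_inter]
        have := hw0 x
        simp only [H]
        field_simp
        ring
      · constructor
        · intro j
          fin_cases j
          · change x ∈ dom (mk _)
            rw [hmkdom]; exact hxJ
          · change x ∈ dom (mk _)
            rw [hmkdom]; exact hxJ
        · simp only [Q, MvPolynomial.eval_X, hval1]
          exact hw0 x
    have h2 : f 2 (U c x) = some (φ (U c x)) := by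
      change mk φ (U c x) = _
      simp only [mk]
      rw [if_pos (hUJ c x)]
    change (ratComb P Q g₂ x).bind (f 2) = _
    rw [hrat, Option.bind_some, h2, hφU, hc, hF x hx]

end Pool.Agent.Results.MP_4d4a97_an.ClosedUnderIntegration
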